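import Pool.Agent.MP_db5b97_nt.H30.B1

/-! Removing a finite kernel. -/

namespace Pool.Agent.MP_db5b97_nt.H30

open H85 Module

variable {E W : Type} [Group E] [AddCommGroup W] [Module Om W] [DistribMulAction E W]
  {π : E →* Ga} {E0 U : Subgroup E}

/-- the property holds on the part of `E0` over an open subgroup -/
def OP (π : E →* Ga) (E0 : Subgroup E) (P : E → Prop) : Prop :=
  ∃ H : Subgroup Ga, IsOpen (H : Set Ga) ∧ ∀ e ∈ E0, π e ∈ H → P e

theorem OP.mono {P Q : E → Prop} (h : OP π E0 P) (h' : ∀ e, P e → Q e) : OP π E0 Q :=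
  h.imp fun _ h => ⟨h.1, fun e he hH => h' e (h.2 e he hH)⟩

theorem OP.and {P Q : E → Prop} (h : OP π E0 P) (h' : OP π E0 Q) : OP π E0 fun e => P e ∧ Q e := by
  obtain ⟨H, h1, h2⟩ := h
  obtain ⟨H', h3, h4⟩ := h'
  exact ⟨H ⊓ H', h1.inter h3, fun e he hH => ⟨h2 e he hH.1, h4 e he hH.2⟩⟩

theorem OP.all {ι : Type} [Finite ι] {P : ι → E → Prop} (h : ∀ i, OP π E0 (P i)) :
    OP π E0 fun e => ∀ i, P i e := by
  choose H h1 h2 using h
  refine ⟨⨅ i, H i, ?_, fun e he hH i => h2 i e he (Subgroup.mem_iInf.1 hH i)⟩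
  rw [Subgroup.coe_iInf]
  exact isOpen_iInter_of_finite h1

variable (W π) in
/-- semilinearity -/
def SL : Prop := ∀ (e : E) (a : Om) (w : W), e • a • w = π e a • e • w

/-- conjugation of endomorphisms -/
noncomputable def cj (h : SL W π) (e : E) (φ : W →ₗ[Om] W) : W →ₗ[Om] W where
  toFun w := e • φ (e⁻¹ • w)
  map_add' x y := by rw [smul_add, map_add, smul_add]
  map_smul' a w := by
    rw [h, map_smul, h, ← AlgEquiv.mul_apply, ← map_mul, mul_inv_cancel, map_one]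
    rfl

theorem cj_apply (h : SL W π) (e : E) (φ : W →ₗ[Om] W) (w : W) : cj h e φ w = e • φ (e⁻¹ • w) :=
  rfl

theorem cj_mul (h : SL W π) (e f : E) (φ : W →ₗ[Om] W) : cj h (e * f) φ = cj h e (cj h f φ) := by
  ext w
  simp [cj_apply, mul_smul]

theorem cj_one (h : SL W π) (φ : W →ₗ[Om] W) : cj h 1 φ = φ := by
  ext w
  simp [cj_apply]

theorem cj_add (h : SL W π) (e : E) (φ ψ : W →ₗ[Om] W) :
    cj h e (φ + ψ) = cj h e φ + cj h e ψ := by
  ext w
  simp [cj_apply]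

theorem cj_zero (h : SL W π) (e : E) : cj h e 0 = 0 := by
  ext w
  simp [cj_apply]

theorem cj_smul (h : SL W π) (e : E) (a : Om) (φ : W →ₗ[Om] W) :
    cj h e (a • φ) = π e a • cj h e φ := by
  ext w
  simp only [cj_apply, LinearMap.smul_apply]
  rw [h]

theorem SL.lin (h : SL W π) (U : Subgroup E) : Lin W (U ⊓ π.ker) := fun g hg a w => by
  rw [h, show π g = 1 from hg.2]
  rfl

/-- conjugation on a stable space of endomorphisms -/
@[reducible] noncomputable def cjAct (h : SL W π) (U : Subgroup E) (C : Submodule Om (W →ₗ[Om] W))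
    (hC : ∀ u ∈ U, ∀ φ ∈ C, cj h u φ ∈ C) : DistribMulAction U C where
  smul u φ := ⟨cj h u φ, hC u u.2 φ φ.2⟩
  one_smul φ := Subtype.ext (cj_one h φ)
  mul_smul u v φ := Subtype.ext (cj_mul h u v φ)
  smul_zero u := Subtype.ext (cj_zero h u)
  smul_add u φ ψ := Subtype.ext (cj_add h u φ ψ)

variable (W π E0) in
/-- the standing hypotheses -/
structure Ctx : Prop where
  sl : SL W π
  op : IsOpen ((E0.map π : Subgroup Ga) : Set Ga)
  st : ∀ w : W, Opn π E0 (MulAction.stabilizer E w)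
  im : ∃ i : Om, i ^ 2 = -1 ∧ ∀ e, π e i = i
  fin : Finite π.ker
  faith : ∀ g, π g = 1 → (∀ w : W, g • w = w) → g = 1

theorem Ctx.finite (c : Ctx W π E0) (U : Subgroup E) : Finite ↥(U ⊓ π.ker) :=
  have := c.fin
  Finite.of_injective _ (Subgroup.inclusion_injective (inf_le_right : U ⊓ π.ker ≤ π.ker))

theorem rowC' (hC : RowC) (c : Ctx W π E0) (hU : Opn π E0 U) (W' : Type) [AddCommGroup W']
    [Module Om W'] [FiniteDimensional Om W'] [DistribMulAction U W'] (r : ℕ)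
    (h1 : ∀ (e : U) (a : Om) (w : W'), e • a • w = π e a • e • w)
    (h2 : ∀ w : W', OP π E0 fun e => ∀ he : e ∈ U, (⟨e, he⟩ : U) • w = w) (hr : 0 < r)
    (h3 : ∀ g : U, π g = 1 → ∀ w : W', g ^ r • w = w)
    (h4 : ∀ g h : U, π g = 1 → π h = 1 → ∀ w : W', g • h • w = h • g • w) :
    ∃ U2 ≤ U, ∃ T : Finset ℕ, Opn π E0 U2 ∧
      (∀ g : U, (g : E) ∈ U2 → π g = 1 → ∀ w : W', g • w = w) ∧ (∀ p ∈ T, p.Prime ∧ p ∣ r) ∧
      (∀ y, 2 ≤ y → finrank Om W' < y ^ 2 → (T.filter (y ≤ ·)).card * (y - 1) ≤ finrank Om W') ∧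
      (U2.map π).relIndex (U.map π) ≤ ∏ p ∈ T, p ^ Jb (Nat.log p (finrank Om W')) := by
  have := c.fin
  obtain ⟨E', T, k1, k2, k3, k4, k5⟩ := hC U W' (π.comp U.subtype) (E0.subgroupOf U) r h1 (by
      obtain ⟨H, q1, q2⟩ := hU
      refine Subgroup.isOpen_mono (H₁ := E0.map π ⊓ H) ?_ (c.op.inter q1)
      rintro _ ⟨⟨e, he, rfl⟩, hH⟩
      exact ⟨⟨e, q2 e he hH⟩, he, rfl⟩)
    (fun w => (h2 w).imp fun H h => ⟨h.1, fun e he hH => h.2 e he hH e.2⟩)
    (c.im.imp fun i h => ⟨h.1, fun e => h.2 e⟩)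
    (Finite.of_injective (fun g : (π.comp U.subtype).ker => (⟨g.1.1, g.2⟩ : π.ker))
      fun a b h => Subtype.ext (Subtype.ext (Subtype.mk.inj h))) hr h3 h4
  refine ⟨E'.map U.subtype, Subgroup.map_subtype_le _, T, ?_, ?_, k3, k4, ?_⟩
  · obtain ⟨H, q1, q2⟩ := hU
    obtain ⟨H', q3, q4⟩ := k1
    exact ⟨H ⊓ H', q1.inter q3, fun e he hH => ⟨⟨e, q2 e he hH.1⟩, q4 _ he hH.2, rfl⟩⟩
  · rintro g ⟨g', hg', e⟩ hg
    rw [show g' = g from Subtype.ext e] at hg'
    exact k2 g hg' hg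
  · have e : U.map π = (π.comp U.subtype).range := by
      rw [← MonoidHom.map_range, Subgroup.range_subtype]
    rwa [Subgroup.map_map, e]

variable [FiniteDimensional Om W]

theorem Ctx.op_cj (c : Ctx W π E0) (φ : W →ₗ[Om] W) : OP π E0 fun e => cj c.sl e φ = φ := by
  let b := Module.finBasis Om W
  refine ((OP.all fun i => c.st (b i)).and (OP.all fun i => c.st (φ (b i)))).mono
    fun e he => b.ext fun i => ?_
  have h1 : e⁻¹ • b i = b i := (MulAction.stabilizer E (b i)).inv_mem (he.1 i)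
  rw [cj_apply, h1]
  exact he.2 i

theorem Ctx.op_cent (c : Ctx W π E0) : OP π E0 fun e => ∀ g : π.ker, e * g * e⁻¹ = g := by
  have := c.fin
  refine OP.all fun g => (c.op_cj (lin (c.sl.lin ⊤) (g := g) ⟨trivial, g.2⟩)).mono fun e he => ?_
  have h1 := c.faith ((g : E)⁻¹ * (e * g * e⁻¹)) (by
    simp [show π g = 1 from g.2]) fun w => by
      have h2 : e • (g : E) • e⁻¹ • w = (g : E) • w := LinearMap.congr_fun he w
      rw [mul_smul, mul_smul, mul_smul, h2, inv_smul_smul]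
  exact (inv_mul_eq_one.1 h1).symm

theorem Ctx.minimal (c : Ctx W π E0) (hU : Opn π E0 U) :
    ∃ U1 ≤ U, Opn π E0 U1 ∧ U1.map π = U.map π ∧ Nil (U1 ⊓ π.ker) := by
  classical
  have hex : ∃ n, ∃ U1 ≤ U, Opn π E0 U1 ∧ U1.map π = U.map π ∧ Nat.card ↥(U1 ⊓ π.ker) = n :=
    ⟨_, U, le_rfl, hU, rfl, rfl⟩
  obtain ⟨U1, h1, h2, h3, h4⟩ := Nat.find_spec hex
  refine ⟨U1, h1, h2, h3, ?_⟩
  have := c.finite U1
  set N : Subgroup U1 := π.ker.subgroupOf U1 with hN
  have : Finite N := Finite.of_injective (fun g : N => (⟨g.1.1, g.1.2, g.2⟩ : ↥(U1 ⊓ π.ker)))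
    fun a b h => Subtype.ext (Subtype.ext (Subtype.mk.inj h))
  have hr : (U1.subtype.comp N.subtype).range = U1 ⊓ π.ker := by
    ext g
    exact ⟨by rintro ⟨a, rfl⟩; exact ⟨a.1.2, a.2⟩, fun h => ⟨⟨⟨g, h.1⟩, h.2⟩, rfl⟩⟩
  rw [← hr]
  refine nil_of_sylow (fun p hp P => ?_) _ (U1.subtype_injective.comp N.subtype_injective)
  have hF := Sylow.normalizer_sup_eq_top P
  set M : Subgroup U1 := Subgroup.normalizer ((P : Subgroup N).map N.subtype : Set U1) with hM
  have k1 : M.map U1.subtype ≤ U1 := Subgroup.map_subtype_le _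
  have k2 : Opn π E0 (M.map U1.subtype) := by
    refine (OP.and h2 c.op_cent).mono fun e he => ⟨⟨e, he.1⟩, ?_, rfl⟩
    have : ∀ a : U1, a ∈ N → (⟨e, he.1⟩ : U1) * a * (⟨e, he.1⟩ : U1)⁻¹ = a := fun a ha =>
      Subtype.ext (he.2 ⟨a, ha⟩)
    refine Subgroup.mem_set_normalizer_iff.2 fun a => ⟨fun ha => ?_, fun ha => ?_⟩
    · rwa [this a (Subgroup.map_subtype_le _ ha)]
    · have h5 : a ∈ N := by
        have h6 := (inferInstance : N.Normal).conj_mem' _ (Subgroup.map_subtype_le _ ha) ⟨e, he.1⟩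
        rwa [mul_assoc, mul_assoc, inv_mul_cancel, mul_one, inv_mul_cancel_left] at h6
      rwa [this a h5] at ha
  have k3 : (M.map U1.subtype).map π = U1.map π := by
    refine le_antisymm (Subgroup.map_mono k1) ?_
    rintro _ ⟨u, hu, rfl⟩
    have h5 : (⟨u, hu⟩ : U1) ∈ ((M ⊔ N : Subgroup U1) : Set U1) := by rw [hF]; trivial
    rw [Subgroup.mul_normal] at h5
    obtain ⟨a, ha, b, hb, e⟩ := h5
    refine ⟨a, ⟨a, ha, rfl⟩, ?_⟩
    rw [show u = a * b from (congrArg Subtype.val e).symm, map_mul, show π b = 1 from hb, mul_one]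
  have k4 : M.map U1.subtype ⊓ π.ker = U1 ⊓ π.ker :=
    Subgroup.eq_of_le_of_card_ge (inf_le_inf_right _ k1)
      (h4 ▸ Nat.find_min' hex ⟨_, k1.trans h1, k2, k3.trans h3, rfl⟩)
  refine ⟨fun a ha g => ?_⟩
  have h5 : (g.1.1 : E) ∈ M.map U1.subtype ⊓ π.ker := by
    rw [k4]
    exact ⟨g.1.2, g.2⟩
  obtain ⟨g', hg', e⟩ := h5.1
  rw [show g' = g.1 from Subtype.ext e] at hg'
  obtain ⟨b, hb, e'⟩ := (Subgroup.mem_set_normalizer_iff.1 hg' a.1).1 ⟨a, ha, rfl⟩
  rwa [show g * a * g⁻¹ = b from Subtype.ext e'.symm]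

theorem Jb_mono {k l : ℕ} (h : k ≤ l) : Jb k ≤ Jb l := by
  unfold Jb jb
  gcongr

theorem round (hC : RowC) (c : Ctx W π E0) (hU : Opn π E0 U) (hN : Nil (U ⊓ π.ker)) {p : ℕ}
    (hp : p.Prime) : ∃ U2 ≤ U, Opn π E0 U2 ∧
      (U2.map π).relIndex (U.map π) ≤ p ^ Jb (Nat.log p (finrank Om W ^ 2)) ∧
      ∀ W2 : Submodule Om W, Irr (U2 ⊓ π.ker) W2 → NA (U2 ⊓ π.ker) p W2 →
        ∃ W1 : Submodule Om W, Irr (U ⊓ π.ker) W1 ∧ NA (U ⊓ π.ker) p W1 ∧
          p * finrank Om W2 ≤ finrank Om W1 := by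
  have := c.fin
  have := c.finite U
  set G := U ⊓ π.ker with hG
  have hL : Lin W G := c.sl.lin U
  obtain ⟨a, m, hm, hcard⟩ :=
    Nat.exists_eq_pow_mul_and_not_dvd (Nat.card_pos (α := π.ker)).ne' p hp.ne_one
  let C : Submodule Om (W →ₗ[Om] W) :=
    { carrier := {φ | ∀ g ∈ G, (∀ h ∈ G, cj c.sl (g * h) φ = cj c.sl (h * g) φ) ∧
        cj c.sl (g ^ p ^ a) φ = φ}
      add_mem' := fun {φ ψ} h1 h2 g hg => ⟨fun h hh => by
        rw [cj_add, cj_add, (h1 g hg).1 h hh, (h2 g hg).1 h hh], by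
        rw [cj_add, (h1 g hg).2, (h2 g hg).2]⟩
      zero_mem' := fun g _ => ⟨fun h _ => by rw [cj_zero, cj_zero], cj_zero _ _⟩
      smul_mem' := fun b φ h1 g hg => ⟨fun h hh => by
        rw [cj_smul, cj_smul, (h1 g hg).1 h hh, show π (g * h) = 1 from (G.mul_mem hg hh).2,
          show π (h * g) = 1 from (G.mul_mem hh hg).2], by
        rw [cj_smul, (h1 g hg).2, show π (g ^ p ^ a) = 1 from (G.pow_mem hg _).2]
        rfl⟩ }
  have hst : ∀ u ∈ U, ∀ φ ∈ C, cj c.sl u φ ∈ C := by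
    intro u hu φ hφ
    have hc : ∀ g ∈ G, u⁻¹ * g * u ∈ G := fun g hg =>
      ⟨U.mul_mem (U.mul_mem (U.inv_mem hu) hg.1) hu, π.normal_ker.conj_mem' g hg.2 u⟩
    refine fun g hg => ⟨fun h hh => ?_, ?_⟩
    · rw [← cj_mul, ← cj_mul, show g * h * u = u * (u⁻¹ * g * u * (u⁻¹ * h * u)) by group,
        show h * g * u = u * (u⁻¹ * h * u * (u⁻¹ * g * u)) by group, cj_mul, cj_mul _ u,
        (hφ _ (hc g hg)).1 _ (hc h hh)]
    · have e : g ^ p ^ a * u = u * (u⁻¹ * g * u) ^ p ^ a := by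
        have := conj_pow (a := u⁻¹) (b := g) (i := p ^ a)
        rw [inv_inv] at this
        rw [this]
        group
      rw [← cj_mul, e, cj_mul, (hφ _ (hc g hg)).2]
  let _ := cjAct c.sl U C hst
  obtain ⟨U2, k1, T, k2, k3, k4, -, k6⟩ := rowC' hC c hU C (p ^ a)
    (fun e b φ => Subtype.ext (cj_smul c.sl e b φ))
    (fun φ => (c.op_cj φ).mono fun e he _ => Subtype.ext he) (pow_pos hp.pos a)
    (fun g hg φ => Subtype.ext (φ.2 g ⟨g.2, hg⟩).2)
    (fun g h hg hh φ => by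
      rw [← mul_smul, ← mul_smul]
      exact Subtype.ext ((φ.2 g ⟨g.2, hg⟩).1 h ⟨h.2, hh⟩))
  refine ⟨U2, k1, k2, k6.trans ?_, fun W2 hI hn => ?_⟩
  · have h1 : T ⊆ {p} := fun q hq => Finset.mem_singleton.2
      ((Nat.prime_dvd_prime_iff_eq (k4 q hq).1 hp).1 ((k4 q hq).1.dvd_of_dvd_pow (k4 q hq).2))
    refine (Finset.prod_le_prod_of_subset_of_one_le' h1 fun q hq _ => ?_).trans ?_
    · rw [Finset.mem_singleton.1 hq]
      exact Nat.one_le_pow _ _ hp.pos
    · rw [Finset.prod_singleton]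
      refine Nat.pow_le_pow_right hp.pos (Jb_mono (Nat.log_mono_right ?_))
      refine C.finrank_le.trans (le_of_eq ?_)
      rw [Module.finrank_linearMap, sq]
  have hG2 : U2 ⊓ π.ker ≤ G := inf_le_inf_right _ k1
  obtain ⟨W1, e, i1, i2, i3, w0, i4, i5⟩ := emb hL hG2 hI.1 hn
  refine ⟨W1, i1, i2, ?_⟩
  obtain ⟨x, hx, px, s, h1, g0, hg0, h2, k, h3⟩ := exists_x hL hN hp i1 i2
  have hφ : lin hL hx ∘ₗ e ∈ C := by
    refine fun g hg => ⟨fun h hh => LinearMap.ext fun w => ?_, LinearMap.ext fun w => ?_⟩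
    · have hR : ∀ g ∈ G, ∀ h ∈ G, (s g * s h) • cj c.sl (g * h) (lin hL hx ∘ₗ e) w = x • e w := by
        intro g hg h hh
        have hv := i3.mem ((g * h)⁻¹ • w)
        have e1 : e w = g • h • e ((g * h)⁻¹ • w) := by
          rw [← mul_smul, ← i3.eqv _ (G.mul_mem hg hh), smul_inv_smul]
        rw [e1, h1 g hg _ (i1.1 h hh _ hv), h1 h hh _ hv, hL g hg, smul_smul, cj_apply, mul_smul g]
        rfl
      by_cases h0 : s g * s h = 0
      · have h4 := hR g hg h hh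
        rw [h0, zero_smul, eq_comm, smul_eq_zero_iff_eq] at h4
        simp only [cj_apply, LinearMap.comp_apply, lin_apply,
          i3.eqv _ (G.inv_mem (G.mul_mem hg hh)), i3.eqv _ (G.inv_mem (G.mul_mem hh hg)), h4,
          smul_zero]
      · exact smul_right_injective W h0
          ((hR g hg h hh).trans (by rw [← hR h hh g hg, mul_comm (s h)]))
    · have hy : (g ^ p ^ a) ^ m = 1 := by
        rw [← pow_mul, ← hcard]
        exact congrArg Subtype.val (pow_card_eq_one' (x := (⟨g, hg.2⟩ : π.ker)))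
      have hm0 : 0 < m := Nat.pos_of_ne_zero (by rintro rfl; exact hm (dvd_zero p))
      have h4 := Subgroup.mem_centralizer_singleton_iff.1 (mem_of_parts (Subgroup.centralizer {x})
        _ (g ^ p ^ a) rfl (isOfFinOrder_iff_pow_eq_one.2 ⟨m, hm0, hy⟩).orderOf_pos
        fun q hq hd j hj => Subgroup.mem_centralizer_singleton_iff.2 (hN.comm hq hp (by
          rintro rfl
          exact hm (hd.trans (orderOf_dvd_of_pow_eq_one hy)))
          (G.pow_mem (G.pow_mem hg _) j) hx hj px))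
      rw [cj_apply, LinearMap.comp_apply, LinearMap.comp_apply, lin_apply, lin_apply,
        i3.eqv _ (G.inv_mem (G.pow_mem hg _)), ← mul_smul, h4, mul_smul, smul_inv_smul]
  let G3 : Subgroup E :=
    { carrier := {g | g ∈ G ∧ ∀ w ∈ W1, g • x • w = x • g • w}
      one_mem' := ⟨G.one_mem, fun w _ => by simp⟩
      mul_mem' := fun {g h} hg hh => ⟨G.mul_mem hg.1 hh.1, fun w hw => by
        rw [mul_smul, mul_smul, hh.2 w hw, hg.2 _ (i1.1 h hh.1 w hw)]⟩
      inv_mem' := fun {g} hg => ⟨G.inv_mem hg.1, fun w hw => by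
        rw [inv_smul_eq_iff, hg.2 _ (i1.1 _ (G.inv_mem hg.1) w hw), smul_inv_smul]⟩ }
  have hG3 : G3 ≤ G := fun g hg => hg.1
  have : Finite G3 := Finite.of_injective _ (Subgroup.inclusion_injective hG3)
  have hx3 : x ∈ G3 := ⟨hx, fun _ _ => rfl⟩
  have h23 : U2 ⊓ π.ker ≤ G3 := fun g hg => ⟨hG2 hg, fun w hw => by
    have h4 : cj c.sl g (lin hL hx ∘ₗ e) = lin hL hx ∘ₗ e :=
      congrArg Subtype.val (k3 ⟨g, k1 hg.1⟩ hg.1 hg.2 ⟨_, hφ⟩)
    have h5 := LinearMap.congr_fun h4 (g • w)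
    rw [cj_apply, inv_smul_smul, LinearMap.comp_apply, LinearMap.comp_apply, i3.fix w hw,
      i3.fix _ (i1.1 g (hG2 hg) w hw)] at h5
    exact h5⟩
  obtain ⟨W3, j1, e3, j2, j3, j4⟩ := decomp (hL.mono hG3) _ W1 rfl
    (fun g hg => i1.1 g hg.1) _ (i3.mem w0) i5
  obtain ⟨l, hl⟩ := schur (hL.mono hG3) j2 hx3 fun g hg w hw => (hg.2 w (j1 hw)).symm
  have d1 := dim_le_of_eqv hI (e3 ∘ₗ e) (W3 := W3) (fun g hg w => by
    rw [LinearMap.comp_apply, i3.eqv g (hG2 hg), j3.eqv g (h23 hg), LinearMap.comp_apply])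
    (fun w => j3.mem _) i4 j4
  obtain ⟨o1, o2⟩ := order_dvd hp h2 h3
  exact (Nat.mul_le_mul_left p d1).trans
    (eig_bound hL i1.1 hx hg0 (h1 g0 hg0) (Nat.le_of_dvd o2 o1) j1 j2.2.1 hl)

omit [FiniteDimensional Om W] in
theorem NA.mono {G G2 : Subgroup E} {W1 : Submodule Om W} {p : ℕ} (h : NA G2 p W1)
    (hG : G2 ≤ G) : NA G p W1 := by
  obtain ⟨g, hg, u, hu, h⟩ := h
  exact ⟨g, hG hg, u, hG hu, h⟩

theorem budget_mono (c : Ctx W π E0) {U2 : Subgroup E} (h : U2 ≤ U) {p d : ℕ}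
    (hb : ∀ W1 : Submodule Om W, Irr (U ⊓ π.ker) W1 → NA (U ⊓ π.ker) p W1 → finrank Om W1 < d)
    (W2 : Submodule Om W) (hI : Irr (U2 ⊓ π.ker) W2) (hn : NA (U2 ⊓ π.ker) p W2) :
    finrank Om W2 < d := by
  have := c.finite U
  have hG2 : U2 ⊓ π.ker ≤ U ⊓ π.ker := inf_le_inf_right _ h
  obtain ⟨W1, e, i1, i2, i3, w0, i4, i5⟩ := emb (c.sl.lin U) hG2 hI.1 hn
  exact (dim_le_of_eqv hI e (fun g hg => i3.eqv g (hG2 hg)) i3.mem i4 i5).trans_lt (hb W1 i1 i2)

theorem rounds (hC : RowC) (c : Ctx W π E0) (T : Finset ℕ) (hT : ∀ p ∈ T, p.Prime) :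
    ∀ (s : ℕ) (k : ℕ → ℕ) (U : Subgroup E), ∑ p ∈ T, k p = s → Opn π E0 U →
      (∀ p, p.Prime → NA (U ⊓ π.ker) p (⊤ : Submodule Om W) → p ∈ T) →
      (∀ p, p.Prime → ∀ W1 : Submodule Om W, Irr (U ⊓ π.ker) W1 → NA (U ⊓ π.ker) p W1 →
        finrank Om W1 < p ^ (k p + 1)) →
      ∃ U' ≤ U, Opn π E0 U' ∧ (∀ g ∈ U' ⊓ π.ker, ∀ u ∈ U' ⊓ π.ker, g * u = u * g) ∧
        (U'.map π).relIndex (U.map π) ≤
          ∏ p ∈ T, p ^ (k p * Jb (Nat.log p (finrank Om W ^ 2))) := by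
  classical
  intro s
  induction s using Nat.strong_induction_on with
  | _ s ih =>
    intro k U hs hU h1 h2
    obtain ⟨U1, a1, a2, a3, a4⟩ := c.minimal hU
    have := c.finite U1
    by_cases hna : ∀ p, p.Prime → ¬ NA (U1 ⊓ π.ker) p (⊤ : Submodule Om W)
    · refine ⟨U1, a1, a2, comm_of_not_na a4 (fun g hg => c.faith g hg.2) hna, ?_⟩
      rw [a3, Subgroup.relIndex_self]
      exact Finset.one_le_prod' fun p hp => Nat.one_le_pow _ _ (hT p hp).pos
    push Not at hna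
    obtain ⟨p, hp, hn⟩ := hna
    have hpT : p ∈ T := h1 p hp (hn.mono (inf_le_inf_right _ a1))
    have h3 := fun q hq => budget_mono c a1 (h2 q hq)
    obtain ⟨W1, e, i1, i2, -⟩ := emb (W2 := ⊤) (c.sl.lin U1) le_rfl (fun _ _ _ _ => trivial) hn
    have hk : 1 ≤ k p := by
      obtain ⟨d1, d2⟩ := na_dvd (c.sl.lin U1) a4 hp i1 i2
      have := (Nat.le_of_dvd d2 d1).trans_lt (h3 p hp W1 i1 i2)
      by_contra h0
      rw [show k p = 0 by omega] at this
      simp at this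
    obtain ⟨U2, b1, b2, b3, b4⟩ := round hC c a2 a4 hp
    obtain ⟨U3, c1, c2, c3, c4⟩ := ih _ (by
        rw [← hs]
        refine Finset.sum_lt_sum (f := Function.update k p (k p - 1)) (fun q _ => ?_) ⟨p, hpT, ?_⟩
        · by_cases hq : q = p
          · rw [hq, Function.update_self]
            omega
          · rw [Function.update_of_ne hq]
        · rw [Function.update_self]
          omega) (Function.update k p (k p - 1)) U2 rfl b2
      (fun q hq hn => h1 q hq (hn.mono (inf_le_inf_right _ (b1.trans a1)))) (fun q hq W2 j1 j2 => by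
        by_cases hqp : q = p
        · subst hqp
          obtain ⟨W1, l1, l2, l3⟩ := b4 W2 j1 j2
          have := l3.trans_lt (h3 q hq W1 l1 l2)
          rw [Function.update_self, Nat.sub_add_cancel hk]
          rw [pow_succ'] at this
          exact Nat.lt_of_mul_lt_mul_left this
        · rw [Function.update_of_ne hqp]
          exact budget_mono c b1 (h3 q hq) W2 j1 j2)
    refine ⟨U3, c1.trans (b1.trans a1), c2, c3, ?_⟩
    rw [← a3, ← Subgroup.relIndex_mul_relIndex _ _ _ (Subgroup.map_mono c1) (Subgroup.map_mono b1)]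
    refine (Nat.mul_le_mul c4 b3).trans (le_of_eq ?_)
    rw [← Finset.mul_prod_erase T _ hpT, ← Finset.mul_prod_erase T _ hpT, Function.update_self,
      mul_right_comm, ← pow_add, ← add_one_mul, Nat.sub_add_cancel hk]
    congr 1
    exact Finset.prod_congr rfl fun q hq => by
      rw [Function.update_of_ne (Finset.ne_of_mem_erase hq)]

theorem rowB (hC : RowC) : RowB := by
  classical
  intro E W _ _ _ _ _ π E0 h1 h2 h3 h4 h5 h6
  have c : Ctx W π E0 := ⟨h1, h2, h3, h4, h5, h6⟩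
  obtain ⟨U0, -, a2, a3, a4⟩ := c.minimal (U := ⊤) ⟨⊤, isOpen_univ, fun _ _ _ => trivial⟩
  have := c.finite U0
  set n := finrank Om W with hn
  set T0 := (Finset.range (n + 1)).filter
    fun p => p.Prime ∧ NA (U0 ⊓ π.ker) p (⊤ : Submodule Om W) with hT0
  have hT : ∀ p ∈ T0, p.Prime := fun p hp => (Finset.mem_filter.1 hp).2.1
  obtain ⟨U1, b1, b2, b3, b4⟩ := rounds hC c T0 hT _ (fun p => Nat.log p n) U0 rfl a2
    (fun p hp hna => by
      refine Finset.mem_filter.2 ⟨Finset.mem_range.2 ?_, hp, hna⟩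
      have := count (c.sl.lin U0) a4 hp.two_le _ ⊤ rfl (fun _ _ _ _ => trivial) {p}
        (by simpa using ⟨hp, hna⟩)
      rw [finrank_top, Finset.card_singleton] at this
      omega)
    fun p hp W1 _ _ => W1.finrank_le.trans_lt (Nat.lt_pow_succ_log_self hp.one_lt n)
  obtain ⟨U2, k1, T1, k2, k3, k4, k5, k6⟩ := rowC' hC c b2 W (Nat.card π.ker)
    (fun e => h1 e) (fun w => OP.mono (h3 w) fun e he _ => he) Nat.card_pos
    (fun g hg w => by
      have : (g : E) ^ Nat.card π.ker = 1 :=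
        congrArg Subtype.val (pow_card_eq_one' (x := (⟨g, hg⟩ : π.ker)))
      show ((g ^ Nat.card π.ker : U1) : E) • w = w
      rw [Subgroup.coe_pow, this, one_smul])
    (fun g u hg hu w => by
      show (g : E) • (u : E) • w = (u : E) • (g : E) • w
      rw [← mul_smul, b3 g ⟨g.2, hg⟩ u ⟨u.2, hu⟩, mul_smul])
  have hP : ∀ p ∈ T0 ∪ T1, p.Prime := fun p hp =>
    (Finset.mem_union.1 hp).elim (hT p) fun h => (k4 p h).1
  have hn2 : n ≤ n ^ 2 := Nat.le_self_pow (by norm_num) n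
  refine ⟨U2, T0 ∪ T1, k2, fun g hg hπ => h6 g hπ (k3 ⟨g, k1 hg⟩ hg hπ), hP, fun y hy hy' => ?_, ?_⟩
  · have e1 := count (c.sl.lin U0) a4 hy _ ⊤ rfl (fun _ _ _ _ => trivial) (T0.filter (y ≤ ·))
      fun p hp => by
        rw [Finset.mem_filter] at hp
        exact ⟨hT p hp.1, hp.2, (Finset.mem_filter.1 hp.1).2.2⟩
    rw [finrank_top] at e1
    have e2 := k5 y hy hy'
    rw [Finset.filter_union]
    calc (T0.filter (y ≤ ·) ∪ T1.filter (y ≤ ·)).card * (y - 1)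
        ≤ ((T0.filter (y ≤ ·)).card + (T1.filter (y ≤ ·)).card) * (y - 1) :=
          Nat.mul_le_mul_right _ (Finset.card_union_le _ _)
      _ ≤ (T0.filter (y ≤ ·)).card * y + (T1.filter (y ≤ ·)).card * (y - 1) := by
          rw [add_mul]
          gcongr
          omega
      _ ≤ 2 * n := by omega
  · rw [MonoidHom.range_eq_map, ← a3,
      ← Subgroup.relIndex_mul_relIndex _ _ _ (Subgroup.map_mono k1) (Subgroup.map_mono b1)]
    refine (Nat.mul_le_mul k6 b4).trans ?_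
    simp only [add_one_mul, pow_add, Finset.prod_mul_distrib]
    rw [mul_comm]
    refine Nat.mul_le_mul ?_ ?_
    · refine (Finset.prod_le_prod' fun p hp => ?_).trans (Finset.prod_le_prod_of_subset_of_one_le'
        Finset.subset_union_left fun p hp _ => Nat.one_le_pow _ _ (hP p hp).pos)
      exact Nat.pow_le_pow_right (hT p hp).pos (Nat.mul_le_mul_right _ (Nat.log_mono_right hn2))
    · refine (Finset.prod_le_prod' fun p hp => ?_).trans (Finset.prod_le_prod_of_subset_of_one_le'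
        Finset.subset_union_right fun p hp _ => Nat.one_le_pow _ _ (hP p hp).pos)
      exact Nat.pow_le_pow_right (k4 p hp).1.pos (Jb_mono (Nat.log_mono_right hn2))

end Pool.Agent.MP_db5b97_nt.H30
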