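import Pool.Agent.MP_db5b97_nt.H85.Spec

/-! Finite nilpotent linear groups. -/

namespace Pool.Agent.MP_db5b97_nt.H30

open H85 Module

section Grp

variable {E : Type} [Group E]

/-- elements of order a power of `p` -/
def IsP (p : ℕ) (g : E) : Prop := ∃ k, g ^ p ^ k = 1

theorem IsP.inv {p : ℕ} {g : E} (h : IsP p g) : IsP p g⁻¹ :=
  h.imp fun k hk => by rw [inv_pow, hk, inv_one]

theorem IsP.conj {p : ℕ} {g : E} (h : IsP p g) (u : E) : IsP p (u * g * u⁻¹) :=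
  h.imp fun k hk => by rw [conj_pow, hk, mul_one, mul_inv_cancel]

theorem IsP.eq_one {p q : ℕ} (hp : p.Prime) (hq : q.Prime) (hpq : p ≠ q) {g : E} (h : IsP p g)
    (h' : IsP q g) : g = 1 := by
  obtain ⟨k, hk⟩ := h
  obtain ⟨l, hl⟩ := h'
  have := Nat.dvd_gcd (orderOf_dvd_of_pow_eq_one hk) (orderOf_dvd_of_pow_eq_one hl)
  rw [((Nat.coprime_primes hp hq).2 hpq).pow k l, Nat.dvd_one] at this
  exact orderOf_eq_one_iff.1 this

/-- the two consequences of nilpotency that are used -/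
structure Nil (G : Subgroup E) : Prop where
  mul : ∀ p, p.Prime → ∀ g ∈ G, ∀ h ∈ G, IsP p g → IsP p h → IsP p (g * h)
  desc : ∀ (Z : E → Prop) (p : ℕ), p.Prime → Z 1 → ∀ x ∈ G, IsP p x → ¬ Z x →
    ∃ x ∈ G, IsP p x ∧ ¬ Z x ∧ ∀ g ∈ G, Z (x * g * x⁻¹ * g⁻¹)

theorem Nil.comm_P {G : Subgroup E} (h : Nil G) {p : ℕ} (hp : p.Prime) {x g : E} (hx : x ∈ G)
    (hg : g ∈ G) (hP : IsP p x) : IsP p (x * g * x⁻¹ * g⁻¹) := by
  have := h.mul p hp x hx _ (G.mul_mem (G.mul_mem hg (G.inv_mem hx)) (G.inv_mem hg)) hP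
    (hP.inv.conj g)
  simpa only [mul_assoc] using this

theorem Nil.comm {G : Subgroup E} (h : Nil G) {p q : ℕ} (hp : p.Prime) (hq : q.Prime)
    (hpq : p ≠ q) {x g : E} (hx : x ∈ G) (hg : g ∈ G) (hP : IsP p x) (hQ : IsP q g) :
    x * g = g * x := by
  have h1 := h.comm_P hp hx hg hP
  have h2 := (h.comm_P hq hg hx hQ).inv
  have e : (g * x * g⁻¹ * x⁻¹)⁻¹ = x * g * x⁻¹ * g⁻¹ := by group
  rw [e] at h2
  have h3 := h1.eq_one hp hq hpq h2
  calc x * g = x * g * x⁻¹ * g⁻¹ * (g * x) := by group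
    _ = g * x := by rw [h3, one_mul]

theorem mem_of_parts (C : Subgroup E) : ∀ (n : ℕ) (y : E), orderOf y = n → 0 < n →
    (∀ q, q.Prime → q ∣ n → ∀ j : ℕ, IsP q (y ^ j) → y ^ j ∈ C) → y ∈ C := by
  intro n
  induction n using Nat.strong_induction_on with
  | _ n ih =>
    intro y hy hn h
    by_cases h1 : n = 1
    · rw [orderOf_eq_one_iff.1 (hy.trans h1)]
      exact C.one_mem
    obtain ⟨q, hq, hqn⟩ := Nat.exists_prime_and_dvd h1
    obtain ⟨a, m, hm, e⟩ := Nat.exists_eq_pow_mul_and_not_dvd hn.ne' q hq.ne_one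
    have ha : a ≠ 0 := by
      rintro rfl
      exact hm (by simpa [e] using hqn)
    have hm0 : 0 < m := Nat.pos_of_ne_zero (by rintro rfl; exact hm (dvd_zero q))
    have hlt : m < n := by
      rw [e]
      exact lt_mul_left hm0 (Nat.one_lt_pow ha hq.one_lt)
    have h2 : y ^ m ∈ C := h q hq hqn m ⟨a, by rw [← pow_mul, mul_comm, ← e, ← hy, pow_orderOf_eq_one]⟩
    have h3 : y ^ q ^ a ∈ C := by
      refine ih m hlt _ ?_ hm0 fun r hr hrm j hj => ?_
      · rw [orderOf_pow_of_dvd (pow_pos hq.pos a).ne' (by rw [hy, e]; exact dvd_mul_right _ _), hy,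
          e, Nat.mul_div_cancel_left _ (pow_pos hq.pos a)]
      · rw [← pow_mul] at hj ⊢
        exact h r hr (by rw [e]; exact hrm.mul_left _) _ hj
    have hc : Nat.gcd (q ^ a) m = 1 := ((Nat.Prime.coprime_iff_not_dvd hq).2 hm).pow_left a
    have h4 : y = (y ^ q ^ a) ^ (Nat.gcdA (q ^ a) m) * (y ^ m) ^ (Nat.gcdB (q ^ a) m) := by
      rw [← zpow_natCast, ← zpow_natCast, ← zpow_mul, ← zpow_mul, ← zpow_add,
        ← Nat.gcd_eq_gcd_ab, hc, Nat.cast_one, zpow_one]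
    rw [h4]
    exact C.mul_mem (C.zpow_mem h3 _) (C.zpow_mem h2 _)

theorem nil_of_sylow {Γ : Type} [Group Γ] [Finite Γ]
    (hs : ∀ (p : ℕ) (_ : Fact p.Prime) (P : Sylow p Γ), (P : Subgroup Γ).Normal)
    (ι : Γ →* E) (hι : Function.Injective ι) : Nil ι.range := by
  have hP : ∀ p (a : Γ), IsP p (ι a) ↔ IsP p a := fun p a =>
    exists_congr fun k => by rw [← map_pow, map_eq_one_iff ι hι]
  have hmul : ∀ p, p.Prime → ∀ a b : Γ, IsP p a → IsP p b → IsP p (a * b) := by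
    intro p hp a b ha hb
    have := Fact.mk hp
    have hz : ∀ a : Γ, IsP p a → ∃ Q : Sylow p Γ, a ∈ Q := by
      rintro a ⟨k, hk⟩
      have : IsPGroup p (Subgroup.zpowers a) := by
        rintro ⟨_, j, rfl⟩
        refine ⟨k, Subtype.ext ?_⟩
        show (a ^ j) ^ p ^ k = 1
        rw [← zpow_natCast, ← zpow_mul, mul_comm, zpow_mul, zpow_natCast, hk, one_zpow]
      obtain ⟨Q, hQ⟩ := this.exists_le_sylow
      exact ⟨Q, hQ (Subgroup.mem_zpowers a)⟩
    obtain ⟨Q, hQ⟩ := hz a ha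
    obtain ⟨Q', hQ'⟩ := hz b hb
    have := Sylow.unique_of_normal Q (hs p this Q)
    rw [Subsingleton.elim Q' Q] at hQ'
    obtain ⟨k, hk⟩ := Q.isPGroup' ⟨a * b, Q.mul_mem hQ hQ'⟩
    exact ⟨k, congrArg Subtype.val hk⟩
  refine ⟨?_, ?_⟩
  · rintro p hp _ ⟨a, rfl⟩ _ ⟨b, rfl⟩ ha hb
    rw [← map_mul, hP]
    exact hmul p hp a b ((hP p a).1 ha) ((hP p b).1 hb)
  · rintro Z p hp hZ _ ⟨a, rfl⟩ ha hna
    have hN : Group.IsNilpotent Γ := (Group.isNilpotent_of_finite_tfae.out 3 0 rfl rfl).1 hs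
    obtain ⟨n, hn⟩ := hN.nilpotent'
    have key : ∀ i, ∀ a ∈ Subgroup.upperCentralSeries Γ i, IsP p a → ¬ Z (ι a) →
        ∃ x : Γ, IsP p x ∧ ¬ Z (ι x) ∧ ∀ g : Γ, Z (ι (x * g * x⁻¹ * g⁻¹)) := by
      intro i
      induction i with
      | zero =>
        intro a ha _ hna
        rw [Subgroup.upperCentralSeries_zero, Subgroup.mem_bot] at ha
        exact absurd (by rwa [ha, map_one]) hna
      | succ i ih =>
        intro a ha hpa hna
        by_cases hall : ∀ g : Γ, Z (ι (a * g * a⁻¹ * g⁻¹))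
        · exact ⟨a, hpa, hna, hall⟩
        · obtain ⟨g, hg⟩ := not_forall.1 hall
          refine ih _ (Subgroup.mem_upperCentralSeries_succ_iff.1 ha g) ?_ hg
          have := hmul p hp a _ hpa (hpa.inv.conj g)
          simpa only [mul_assoc, commutatorElement_def] using this
    obtain ⟨x, h1, h2, h3⟩ := key n a (by rw [hn]; trivial) ((hP p a).1 ha) hna
    refine ⟨ι x, ⟨x, rfl⟩, (hP p x).2 h1, h2, ?_⟩
    rintro _ ⟨g, rfl⟩
    simpa only [map_mul, map_inv] using h3 g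

end Grp

section Rep

variable {E W : Type} [Group E] [AddCommGroup W] [Module Om W] [DistribMulAction E W]
  {G G2 : Subgroup E} {W1 W2 W3 : Submodule Om W}

variable (W) in
/-- the subgroup acts linearly -/
def Lin (G : Subgroup E) : Prop := ∀ g ∈ G, ∀ (a : Om) (w : W), g • a • w = a • g • w

/-- the linear map given by a group element -/
def lin (h : Lin W G) {g : E} (hg : g ∈ G) : W →ₗ[Om] W where
  toFun w := g • w
  map_add' := smul_add g
  map_smul' := h g hg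

@[simp] theorem lin_apply (h : Lin W G) {g : E} (hg : g ∈ G) (w : W) : lin h hg w = g • w := rfl

theorem Lin.mono (h : Lin W G) (hG : G2 ≤ G) : Lin W G2 := fun g hg => h g (hG hg)

/-- invariant subspaces -/
def Inv (G : Subgroup E) (W1 : Submodule Om W) : Prop := ∀ g ∈ G, ∀ w ∈ W1, g • w ∈ W1

/-- irreducible subspaces -/
def Irr (G : Subgroup E) (W1 : Submodule Om W) : Prop :=
  Inv G W1 ∧ W1 ≠ ⊥ ∧ ∀ W' ≤ W1, Inv G W' → W' = ⊥ ∨ W' = W1

/-- two `p`-elements do not commute on the subspace -/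
def NA (G : Subgroup E) (p : ℕ) (W1 : Submodule Om W) : Prop :=
  ∃ g ∈ G, ∃ h ∈ G, IsP p g ∧ IsP p h ∧ ∃ w ∈ W1, g • h • w ≠ h • g • w

/-- equivariant projections -/
structure Prj (G : Subgroup E) (W1 : Submodule Om W) (e : W →ₗ[Om] W) : Prop where
  mem : ∀ w, e w ∈ W1
  fix : ∀ w ∈ W1, e w = w
  eqv : ∀ g ∈ G, ∀ w, e (g • w) = g • e w

theorem maschke [Finite G] (hL : Lin W G) (h : Inv G W1) : ∃ e, Prj G W1 e := by
  have := Fintype.ofFinite G
  obtain ⟨W', hW'⟩ := W1.exists_isCompl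
  set e0 : W →ₗ[Om] W := W1.subtype ∘ₗ W1.projectionOnto W' hW' with he0
  have m0 : ∀ w, e0 w ∈ W1 := fun w => (W1.projectionOnto W' hW' w).2
  have f0 : ∀ w ∈ W1, e0 w = w := fun w hw =>
    congrArg Subtype.val (Submodule.projectionOnto_apply_left hW' ⟨w, hw⟩)
  have hc : (Fintype.card G : Om) ≠ 0 := by exact_mod_cast Fintype.card_ne_zero
  set e : W →ₗ[Om] W := (Fintype.card G : Om)⁻¹ •
    ∑ g : G, lin hL g.2 ∘ₗ e0 ∘ₗ lin hL (G.inv_mem g.2) with he
  have ev : ∀ w, e w = (Fintype.card G : Om)⁻¹ • ∑ g : G, (g : E) • e0 ((g : E)⁻¹ • w) := by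
    intro w
    simp [he, LinearMap.sum_apply]
  refine ⟨e, fun w => ?_, fun w hw => ?_, fun g hg w => ?_⟩
  · rw [ev]
    exact W1.smul_mem _ (W1.sum_mem fun g _ => h g g.2 _ (m0 _))
  · rw [ev, Finset.sum_congr rfl fun (g : G) _ => show (g : E) • e0 ((g : E)⁻¹ • w) = w by
      rw [f0 _ (h _ (G.inv_mem g.2) w hw), smul_inv_smul]]
    rw [Finset.sum_const, Finset.card_univ, ← Nat.cast_smul_eq_nsmul Om, smul_smul,
      inv_mul_cancel₀ hc, one_smul]
  · rw [ev, ev, hL g hg]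
    congr 1
    rw [Finset.smul_sum]
    symm
    refine Fintype.sum_equiv (Equiv.mulLeft (⟨g, hg⟩ : G)) _ _ fun u => ?_
    simp [mul_smul]

theorem Prj.ker_inv {e : W →ₗ[Om] W} (he : Prj G W1 e) (h2 : Inv G W2) :
    Inv G (W2 ⊓ LinearMap.ker e) := fun g hg w hw =>
  ⟨h2 g hg w hw.1, by
    have : e w = 0 := hw.2
    show e (g • w) = 0
    rw [he.eqv g hg, this, smul_zero]⟩

theorem Prj.sub_mem {e : W →ₗ[Om] W} (he : Prj G W1 e) (h : W1 ≤ W2) {w : W} (hw : w ∈ W2) :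
    w - e w ∈ W2 ⊓ LinearMap.ker e :=
  ⟨W2.sub_mem hw (h (he.mem w)), by
    show e (w - e w) = 0
    rw [map_sub, he.fix _ (he.mem w), sub_self]⟩

theorem Prj.disj {e : W →ₗ[Om] W} (he : Prj G W1 e) : W1 ⊓ (W2 ⊓ LinearMap.ker e) = ⊥ := by
  rw [Submodule.eq_bot_iff]
  intro w hw
  rw [← he.fix w hw.1]
  exact hw.2.2

theorem split (h2 : Inv G W2) (h0 : W2 ≠ ⊥) (hI : ¬ Irr G W2) :
    ∃ W' ≤ W2, Inv G W' ∧ W' ≠ ⊥ ∧ W' ≠ W2 := by
  by_contra hc
  refine hI ⟨h2, h0, fun W' h1 h3 => ?_⟩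
  by_contra h4
  exact hc ⟨W', h1, h3, fun h => h4 (Or.inl h), fun h => h4 (Or.inr h)⟩

theorem Prj.ker_lt {e : W →ₗ[Om] W} (he : Prj G W1 e) (h : W1 ≤ W2) (h0 : W1 ≠ ⊥) :
    W2 ⊓ LinearMap.ker e < W2 := by
  refine lt_of_le_of_ne inf_le_left fun h1 => h0 ?_
  have := he.disj (W2 := W2)
  rwa [h1, inf_of_le_left h] at this

variable [FiniteDimensional Om W]

theorem decomp [Finite G] (hL : Lin W G) : ∀ (d : ℕ) (W2 : Submodule Om W), finrank Om W2 = d →
    Inv G W2 → ∀ w ∈ W2, w ≠ 0 → ∃ W1 ≤ W2, ∃ e, Irr G W1 ∧ Prj G W1 e ∧ e w ≠ 0 := by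
  intro d
  induction d using Nat.strong_induction_on with
  | _ d ih =>
    intro W2 hd h2 w hw h0
    by_cases hI : Irr G W2
    · obtain ⟨e, he⟩ := maschke hL h2
      exact ⟨W2, le_rfl, e, hI, he, by rwa [he.fix w hw]⟩
    obtain ⟨W', h1, h3, h4, h5⟩ := split h2 (fun h => h0 (by simpa [h] using hw)) hI
    obtain ⟨e', he'⟩ := maschke hL h3
    by_cases h6 : e' w = 0
    · obtain ⟨W1, k1, e, k2, k3, k4⟩ := ih _ (hd ▸ Submodule.finrank_lt_finrank_of_lt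
        (he'.ker_lt h1 h4)) _ rfl (he'.ker_inv h2) w ⟨hw, h6⟩ h0
      exact ⟨W1, k1.trans inf_le_left, e, k2, k3, k4⟩
    · obtain ⟨W1, k1, e, k2, k3, k4⟩ := ih _ (hd ▸ Submodule.finrank_lt_finrank_of_lt
        (lt_of_le_of_ne h1 h5)) _ rfl h3 _ (he'.mem w) h6
      refine ⟨W1, k1.trans h1, e ∘ₗ e', k2, ⟨fun v => k3.mem _, fun v hv => ?_, fun g hg v => ?_⟩,
        k4⟩
      · rw [LinearMap.comp_apply, he'.fix v (k1 hv), k3.fix v hv]
      · rw [LinearMap.comp_apply, he'.eqv g hg, k3.eqv g hg, LinearMap.comp_apply]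

theorem schur (hL : Lin W G) (h : Irr G W1) {z : E} (hz : z ∈ G)
    (hc : ∀ g ∈ G, ∀ w ∈ W1, z • g • w = g • z • w) : ∃ c : Om, ∀ w ∈ W1, z • w = c • w := by
  have : Nontrivial W1 := Submodule.nontrivial_iff_ne_bot.2 h.2.1
  obtain ⟨c, hc'⟩ := Module.End.exists_eigenvalue ((lin hL hz).restrict (h.1 z hz))
  obtain ⟨v, hv⟩ := hc'.exists_hasEigenvector
  refine ⟨c, ?_⟩
  have h1 : (z • v : W) = c • v := congrArg Subtype.val hv.apply_eq_smul
  rcases h.2.2 (W1 ⊓ Module.End.eigenspace (lin hL hz) c) inf_le_left (fun g hg w hw =>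
    ⟨h.1 g hg w hw.1, Module.End.mem_eigenspace_iff.2 (by
      have h2 : z • w = c • w := Module.End.mem_eigenspace_iff.1 hw.2
      rw [lin_apply, hc g hg w hw.1, h2, hL g hg])⟩) with h2 | h2
  · refine absurd (Subtype.ext ?_) hv.2
    exact (Submodule.eq_bot_iff _).1 h2 v ⟨v.2, Module.End.mem_eigenspace_iff.2 h1⟩
  · intro w hw
    rw [← h2] at hw
    exact Module.End.mem_eigenspace_iff.1 hw.2

theorem dim_le_of_eqv (h : Irr G W1) (f : W →ₗ[Om] W) (hf : ∀ g ∈ G, ∀ w, f (g • w) = g • f w)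
    (hm : ∀ w, f w ∈ W3) {w : W} (hw : w ∈ W1) (h0 : f w ≠ 0) : finrank Om W1 ≤ finrank Om W3 := by
  rcases h.2.2 (W1 ⊓ LinearMap.ker f) inf_le_left (fun g hg v hv => ⟨h.1 g hg v hv.1, by
    have : f v = 0 := hv.2
    show f (g • v) = 0
    rw [hf g hg, this, smul_zero]⟩) with h2 | h2
  · refine LinearMap.finrank_le_finrank_of_injective
      (f := (f.domRestrict W1).codRestrict W3 fun v => hm v) ?_
    rw [← LinearMap.ker_eq_bot, Submodule.eq_bot_iff]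
    intro v hv
    exact Subtype.ext ((Submodule.eq_bot_iff _).1 h2 v ⟨v.2, congrArg Subtype.val hv⟩)
  · rw [← h2] at hw
    exact absurd hw.2 h0

omit [FiniteDimensional Om W] in
theorem Prj.na {e : W →ₗ[Om] W} (he : Prj G W1 e) {p : ℕ} {g h : E} (hg : g ∈ G) (hh : h ∈ G)
    (pg : IsP p g) (ph : IsP p h) {w : W} (h0 : e (g • h • w - h • g • w) ≠ 0) : NA G p W1 := by
  refine ⟨g, hg, h, hh, pg, ph, e w, he.mem w, fun h1 => h0 ?_⟩
  rw [map_sub, he.eqv g hg, he.eqv h hh, he.eqv h hh, he.eqv g hg, h1, sub_self]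

theorem emb [Finite G] (hL : Lin W G) (hG : G2 ≤ G) {p : ℕ} (hi : Inv G2 W2) (hn : NA G2 p W2) :
    ∃ W1 e, Irr G W1 ∧ NA G p W1 ∧ Prj G W1 e ∧ ∃ w ∈ W2, e w ≠ 0 := by
  obtain ⟨g, hg, h, hh, pg, ph, w, hw, h0⟩ := hn
  obtain ⟨W1, -, e, k2, k3, k4⟩ := decomp hL _ ⊤ rfl (fun _ _ _ _ => trivial) _ trivial
    (sub_ne_zero.2 h0)
  exact ⟨W1, e, k2, k3.na (hG hg) (hG hh) pg ph k4, k3, _,
    W2.sub_mem (hi g hg _ (hi h hh w hw)) (hi h hh _ (hi g hg w hw)), k4⟩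

theorem exists_x (hL : Lin W G) (hN : Nil G) {p : ℕ} (hp : p.Prime) (h : Irr G W1)
    (hn : NA G p W1) : ∃ x ∈ G, IsP p x ∧ ∃ c : E → Om,
      (∀ g ∈ G, ∀ w ∈ W1, x • g • w = c g • g • x • w) ∧
      ∃ g ∈ G, c g ≠ 1 ∧ ∃ k, c g ^ p ^ k = 1 := by
  obtain ⟨g, hg, u, hu, pg, -, w, hw, h0⟩ := hn
  obtain ⟨x, hx, px, h1, h2⟩ := hN.desc (fun z => ∀ g ∈ G, ∀ w ∈ W1, z • g • w = g • z • w) p hp
    (fun _ _ _ _ => by simp) g hg pg fun h => h0 (h u hu w hw)
  have hm : ∀ g ∈ G, x * g * x⁻¹ * g⁻¹ ∈ G := fun g hg =>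
    G.mul_mem (G.mul_mem (G.mul_mem hx hg) (G.inv_mem hx)) (G.inv_mem hg)
  choose! c hc using fun g hg => schur hL h (hm g hg) (h2 g hg)
  have h3 : ∀ g ∈ G, ∀ w ∈ W1, x • g • w = c g • g • x • w := by
    intro g hg w hw
    rw [← hc g hg _ (h.1 g hg _ (h.1 x hx w hw))]
    simp [mul_smul]
  push Not at h1
  obtain ⟨g, hg, w, hw, h1⟩ := h1
  refine ⟨x, hx, px, c, h3, g, hg, fun h4 => h1 (by rw [h3 g hg w hw, h4, one_smul]), ?_⟩
  obtain ⟨k, hk⟩ := hN.comm_P hp hx hg px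
  have h5 : ∀ j : ℕ, (x * g * x⁻¹ * g⁻¹) ^ j • w = c g ^ j • w := by
    intro j
    induction j with
    | zero => simp
    | succ j ih => rw [pow_succ', mul_smul, ih, hL _ (hm g hg), hc g hg w hw, smul_smul, pow_succ]
  have h6 := h5 (p ^ k)
  rw [hk, one_smul] at h6
  have hw0 : w ≠ 0 := by
    rintro rfl
    simp at h1
  exact ⟨k, smul_left_injective Om hw0 (by simpa using h6.symm)⟩

theorem order_dvd {p k : ℕ} (hp : p.Prime) {ζ : Om} (h1 : ζ ≠ 1) (h2 : ζ ^ p ^ k = 1) :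
    p ∣ orderOf ζ ∧ 0 < orderOf ζ := by
  obtain ⟨i, -, hi⟩ := (Nat.dvd_prime_pow hp).1 (orderOf_dvd_of_pow_eq_one h2)
  have : i ≠ 0 := by
    rintro rfl
    exact h1 (orderOf_eq_one_iff.1 (by simpa using hi))
  rw [hi]
  exact ⟨dvd_pow_self p this, pow_pos hp.pos i⟩

theorem dvd_dim (hL : Lin W G) (h : Inv G W1) {x g : E} (hx : x ∈ G) (hg : g ∈ G) {ζ : Om}
    (hc : ∀ w ∈ W1, x • g • w = ζ • g • x • w) : orderOf ζ ∣ finrank Om W1 := by
  have hd : ∀ z (hz : z ∈ G), LinearMap.det ((lin hL hz).restrict (h z hz)) ≠ 0 := by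
    intro z hz h0
    have e : (lin hL hz).restrict (h z hz) ∘ₗ (lin hL (G.inv_mem hz)).restrict (h _ (G.inv_mem hz))
        = LinearMap.id := by
      ext w
      simp [LinearMap.restrict_apply]
    have := congrArg LinearMap.det e
    rw [LinearMap.det_comp, h0, zero_mul, LinearMap.det_id] at this
    exact zero_ne_one this
  have e : (lin hL hx).restrict (h x hx) ∘ₗ (lin hL hg).restrict (h g hg) =
      ζ • ((lin hL hg).restrict (h g hg) ∘ₗ (lin hL hx).restrict (h x hx)) := by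
    ext w
    simpa [LinearMap.restrict_apply] using hc w w.2
  have := congrArg LinearMap.det e
  rw [LinearMap.det_smul, LinearMap.det_comp, LinearMap.det_comp, mul_comm] at this
  apply orderOf_dvd_of_pow_eq_one
  exact mul_right_cancel₀ (mul_ne_zero (hd g hg) (hd x hx)) (by rw [← this, one_mul])

theorem eig_bound (hL : Lin W G) (h : Inv G W1) {x g : E} (hx : x ∈ G) (hg : g ∈ G) {ζ l : Om}
    (hc : ∀ w ∈ W1, x • g • w = ζ • g • x • w) {p : ℕ} (hp : p ≤ orderOf ζ) (h3 : W3 ≤ W1)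
    (h0 : W3 ≠ ⊥) (hl : ∀ w ∈ W3, x • w = l • w) : p * finrank Om W3 ≤ finrank Om W1 := by
  have hl0 : l ≠ 0 := by
    rintro rfl
    refine h0 ((Submodule.eq_bot_iff _).2 fun w hw => ?_)
    have := hl w hw
    rwa [zero_smul, smul_eq_zero_iff_eq] at this
  have h1 : ∀ j : ℕ, ∀ w ∈ W3, x • g ^ j • w = (ζ ^ j * l) • g ^ j • w := by
    intro j w hw
    induction j with
    | zero => simpa using hl w hw
    | succ j ih =>
      rw [pow_succ', mul_smul, hc _ (h _ (G.pow_mem hg j) w (h3 hw)), ih, hL g hg, smul_smul,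
        pow_succ', mul_assoc]
  have hinj : Function.Injective fun j : Fin p => ζ ^ (j : ℕ) * l := by
    intro i j hij
    exact Fin.ext (pow_injOn_Iio_orderOf (lt_of_lt_of_le i.2 hp) (lt_of_lt_of_le j.2 hp)
      (mul_right_cancel₀ hl0 hij))
  have hind := (iSupIndep_iff_finsetSum_eq_zero_imp_eq_zero _).1
    ((Module.End.eigenspaces_iSupIndep (lin hL hx)).comp hinj)
  set Φ : (Fin p → W3) →ₗ[Om] W := ∑ j : Fin p,
    lin hL (G.pow_mem hg j) ∘ₗ W3.subtype ∘ₗ LinearMap.proj j with hΦ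
  have ev : ∀ v, Φ v = ∑ j : Fin p, g ^ (j : ℕ) • (v j : W) := by
    intro v
    simp [hΦ, LinearMap.sum_apply]
  have := LinearMap.finrank_le_finrank_of_injective (f := Φ.codRestrict W1 fun v => by
    rw [ev]
    exact W1.sum_mem fun j _ => h _ (G.pow_mem hg j) _ (h3 (v j).2)) (by
    rw [← LinearMap.ker_eq_bot, Submodule.eq_bot_iff]
    intro v hv
    have h2 : Φ v = 0 := congrArg Subtype.val hv
    rw [ev] at h2
    funext j
    have := hind Finset.univ _ (fun j _ => Module.End.mem_eigenspace_iff.2 (h1 j _ (v j).2)) h2 j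
      (Finset.mem_univ j)
    exact Subtype.ext ((smul_eq_zero_iff_eq _).1 this))
  simpa [Module.finrank_pi_fintype] using this

theorem na_dvd (hL : Lin W G) (hN : Nil G) {p : ℕ} (hp : p.Prime) (h : Irr G W1)
    (hn : NA G p W1) : p ∣ finrank Om W1 ∧ 0 < finrank Om W1 := by
  obtain ⟨x, hx, -, c, h1, g, hg, h2, k, h3⟩ := exists_x hL hN hp h hn
  refine ⟨(order_dvd hp h2 h3).1.trans (dvd_dim hL h.1 hx hg (h1 g hg)), ?_⟩
  exact Nat.pos_of_ne_zero fun h0 => h.2.1 (Submodule.finrank_eq_zero.1 h0)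

theorem count [Finite G] (hL : Lin W G) (hN : Nil G) {y : ℕ} (hy : 2 ≤ y) :
    ∀ (d : ℕ) (W2 : Submodule Om W), finrank Om W2 = d → Inv G W2 → ∀ S : Finset ℕ,
      (∀ p ∈ S, p.Prime ∧ y ≤ p ∧ NA G p W2) → S.card * y ≤ d := by
  classical
  intro d
  induction d using Nat.strong_induction_on with
  | _ d ih =>
    intro W2 hd h2 S hS
    rcases S.eq_empty_or_nonempty with rfl | ⟨p0, hp0⟩
    · simp
    by_cases hI : Irr G W2
    · have h3 := Finset.prod_primes_dvd (finrank Om W2) (fun p hp => (hS p hp).1.prime)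
        fun p hp => (na_dvd hL hN (hS p hp).1 hI (hS p hp).2.2).1
      have h4 := Nat.le_of_dvd (na_dvd hL hN (hS p0 hp0).1 hI (hS p0 hp0).2.2).2 h3
      have h5 : y ^ S.card ≤ ∏ p ∈ S, p := Finset.pow_card_le_prod S _ y fun p hp => (hS p hp).2.1
      obtain ⟨k, hk⟩ : ∃ k, S.card = k + 1 := ⟨S.card - 1, by
        have := Finset.card_pos.2 ⟨p0, hp0⟩
        omega⟩
      rw [hk] at h5 ⊢
      have h6 : k + 1 ≤ y ^ k := (Nat.lt_two_pow_self).trans_le (Nat.pow_le_pow_left hy k)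
      calc (k + 1) * y ≤ y ^ k * y := by gcongr
        _ ≤ d := by rw [← pow_succ]; omega
    have h0 : W2 ≠ ⊥ := by
      rintro rfl
      obtain ⟨g, -, u, -, -, -, w, hw, h0⟩ := (hS p0 hp0).2.2
      rw [Submodule.mem_bot] at hw
      simp [hw] at h0
    obtain ⟨W', h1, h3, h4, h5⟩ := split h2 h0 hI
    obtain ⟨e, he⟩ := maschke hL h3
    have k1 := ih _ (hd ▸ Submodule.finrank_lt_finrank_of_lt (lt_of_le_of_ne h1 h5)) W' rfl h3
      (S.filter fun p => NA G p W') fun p hp => by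
        rw [Finset.mem_filter] at hp
        exact ⟨(hS p hp.1).1, (hS p hp.1).2.1, hp.2⟩
    have k2 := ih _ (hd ▸ Submodule.finrank_lt_finrank_of_lt (he.ker_lt h1 h4)) _ rfl
      (he.ker_inv h2) (S.filter fun p => ¬ NA G p W') fun p hp => by
        rw [Finset.mem_filter] at hp
        obtain ⟨g, hg, u, hu, pg, pu, w, hw, h0⟩ := (hS p hp.1).2.2
        refine ⟨(hS p hp.1).1, (hS p hp.1).2.1, g, hg, u, hu, pg, pu, _, he.sub_mem h1 hw,
          fun h6 => hp.2 ⟨g, hg, u, hu, pg, pu, e w, he.mem w, fun h7 => h0 ?_⟩⟩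
        rwa [smul_sub, smul_sub, smul_sub, smul_sub, h7, sub_left_inj] at h6
    have k3 := Submodule.finrank_sup_add_finrank_inf_eq W' (W2 ⊓ LinearMap.ker e)
    rw [he.disj, finrank_bot] at k3
    have k4 : finrank Om ↥(W' ⊔ W2 ⊓ LinearMap.ker e) ≤ d :=
      hd ▸ Submodule.finrank_mono (sup_le h1 inf_le_left)
    rw [← Finset.card_filter_add_card_filter_not (s := S) fun p => NA G p W', add_mul]
    omega

omit [FiniteDimensional Om W] in
theorem comm_of_not_na [Finite G] (hN : Nil G) (hf : ∀ g ∈ G, (∀ w : W, g • w = w) → g = 1)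
    (h : ∀ p, p.Prime → ¬ NA G p (⊤ : Submodule Om W)) : ∀ g ∈ G, ∀ u ∈ G, g * u = u * g := by
  have ho : ∀ g ∈ G, 0 < orderOf g := fun g hg => by
    rw [← Subgroup.orderOf_mk g hg]
    exact orderOf_pos _
  have h1 : ∀ p, p.Prime → ∀ x ∈ G, IsP p x → ∀ u ∈ G, u * x = x * u := by
    intro p hp x hx px u hu
    refine Subgroup.mem_centralizer_singleton_iff.1
      (mem_of_parts _ _ u rfl (ho u hu) fun q hq _ j hj => ?_)
    rw [Subgroup.mem_centralizer_singleton_iff]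
    by_cases hpq : q = p
    · subst hpq
      have h2 : ∀ w : W, u ^ j • x • w = x • u ^ j • w := fun w => by
        by_contra h3
        exact h q hq ⟨_, G.pow_mem hu j, x, hx, hj, px, w, trivial, h3⟩
      have h3 := hf ((x * u ^ j)⁻¹ * (u ^ j * x)) (G.mul_mem (G.inv_mem (G.mul_mem hx
        (G.pow_mem hu j))) (G.mul_mem (G.pow_mem hu j) hx)) fun w => by
          rw [mul_smul, mul_smul, h2, ← mul_smul x, inv_smul_smul]
      exact (inv_mul_eq_one.1 h3).symm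
    · exact hN.comm hq hp hpq (G.pow_mem hu j) hx hj px
  intro g hg u hu
  refine Subgroup.mem_centralizer_singleton_iff.1
    (mem_of_parts _ _ g rfl (ho g hg) fun q hq _ j hj => ?_)
  rw [Subgroup.mem_centralizer_singleton_iff]
  exact (h1 q hq _ (G.pow_mem hg j) hj u hu).symm

end Rep

end Pool.Agent.MP_db5b97_nt.H30
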