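import Pool.Agent.MP_db5b97_nt.H31.SpecG

/-! The recursion for primitive groups and the structure of the set of large active primes. -/

namespace Pool.Agent.MP_db5b97_nt.H30

open MulAction Pool.Agent.MP_db5b97_nt.H31

namespace RecAux

theorem pd_le {p : ℕ} (hp : p.Prime) {G X : Type} [Group G] [MulAction G X] [Fintype X]
    (h : PD p G X) : p ≤ Fintype.card X := by
  obtain ⟨g, ⟨x, hx⟩, hg⟩ := h
  haveI : Fact p.Prime := ⟨hp⟩
  have h1 : Function.minimalPeriod (g • ·) x = p :=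
    Function.minimalPeriod_eq_prime (isPeriodicPt_smul_iff.2 (hg x)) hx
  rw [← h1]
  exact Function.minimalPeriod_le_card

theorem lt_sq {C0 n y m : ℕ} (h0 : 2 ≤ C0) (h1 : C0 * n ≤ y ^ 2) (h2 : C0 ≤ y) (h3 : m ≤ n) :
    m < y ^ 2 := by
  rcases Nat.eq_zero_or_pos n with rfl | hn
  · have : 0 < y ^ 2 := pow_pos (by omega) 2
    omega
  · nlinarith

theorem card_dvd_le {y a : ℕ} (ha : a ≠ 0) (hy : a < y ^ 2) (T : Finset ℕ)
    (hT : ∀ p ∈ T, p.Prime ∧ y ≤ p ∧ p ∣ a) : T.card ≤ 1 := by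
  refine Finset.card_le_one.2 fun p hp q hq => ?_
  by_contra hne
  obtain ⟨p1, p2, p3⟩ := hT p hp
  obtain ⟨q1, q2, q3⟩ := hT q hq
  have h1 : p * q ∣ a :=
    Nat.Coprime.mul_dvd_of_dvd_of_dvd ((Nat.coprime_primes p1 q1).2 hne) p3 q3
  have h2 := Nat.le_of_dvd (Nat.pos_of_ne_zero ha) h1
  have h3 : y * y ≤ p * q := Nat.mul_le_mul p2 q2
  rw [sq] at hy
  omega

theorem qa_congr {G X X' : Type} [Group G] [Fintype G] [MulAction G X] [Fintype X]
    [MulAction G X'] [Fintype X'] (e : X' ≃ X) (he : ∀ (g : G) (x : X'), e (g • x) = g • e x)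
    {σ : G} {p : ℕ} (h : QA G X σ p) : QA G X' σ p := by
  obtain ⟨v, hv⟩ := h
  refine ⟨fun x => v (e x), ?_⟩
  have h1 : ∀ (g : G) (i : ℕ), ∑ x : X', v (e (g • x)) * v (e (g • σ ^ i • x)) =
      ∑ x : X, v (g • x) * v (g • σ ^ i • x) := fun g i => by
    rw [← Equiv.sum_comp e]
    exact Finset.sum_congr rfl fun x _ => by rw [he, he, he]
  have h2 : ∑ x : X', v (e x) ^ 2 = ∑ x : X, v x ^ 2 := Equiv.sum_comp e fun x => v x ^ 2
  simp only [h1, h2]
  exact hv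

theorem step_num {C L c c' : ℕ} (h1 : c ≤ c' + C * (L + 1) ^ 3) {L' : ℕ} (h2 : c' ≤ C * L' ^ 4)
    (h3 : L' ≤ L) : c ≤ C * (L + 1) ^ 4 := by
  have a1 : L' ^ 4 ≤ L ^ 4 := Nat.pow_le_pow_left h3 4
  have a2 : L ^ 4 + (L + 1) ^ 3 ≤ (L + 1) ^ 4 := by
    have : L ^ 4 ≤ L * (L + 1) ^ 3 := by
      rw [show L ^ 4 = L * L ^ 3 by ring]
      exact Nat.mul_le_mul_left _ (Nat.pow_le_pow_left (Nat.le_succ L) 3)
    calc _ ≤ L * (L + 1) ^ 3 + (L + 1) ^ 3 := Nat.add_le_add_right this _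
      _ = _ := by ring
  calc c ≤ C * L ^ 4 + C * (L + 1) ^ 3 :=
        h1.trans (Nat.add_le_add_right (h2.trans (Nat.mul_le_mul_left _ a1)) _)
    _ = C * (L ^ 4 + (L + 1) ^ 3) := by ring
    _ ≤ _ := Nat.mul_le_mul_left _ a2

end RecAux

open RecAux

theorem rowREC : RowBB → RowG4 → RowG5 → RowSTEP → RowREC := by
  rintro hBB ⟨k0, hG4⟩ ⟨C5, hG5⟩ hST
  refine ⟨max 1601 k0, C5, fun n y hn hy => ?_⟩
  have c1 : 1601 ≤ max 1601 k0 := le_max_left _ _
  have c2 : k0 ≤ max 1601 k0 := le_max_right _ _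
  obtain ⟨C0, hC0⟩ : ∃ C0, C0 = max 1601 k0 := ⟨_, rfl⟩
  rw [← hC0] at hn hy c1 c2
  have key : ∀ (m : ℕ) (H Y : Type) [Group H] [Finite H] [MulAction H Y] [Fintype Y]
      [DecidableEq Y], Fintype.card Y = m → IsPreprimitive H Y → ¬ Gi H Y → m ≤ n →
      ∀ T : Finset ℕ, (∀ p ∈ T, p.Prime ∧ y ≤ p ∧ PD p H Y) →
        T.card ≤ C5 * (Nat.log 2 m + 1) ^ 4 := by
    intro m
    induction m using Nat.strong_induction_on with
    | _ m ih =>
    intro H Y _ _ _ _ _ hm hp hg hmn T hT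
    have b0 : C5 * (Nat.log 2 m + 1) ^ 3 ≤ C5 * (Nat.log 2 m + 1) ^ 4 :=
      Nat.mul_le_mul_left _ (Nat.pow_le_pow_right (Nat.succ_pos _) (by norm_num))
    rcases le_or_gt m (C5 * (Nat.log 2 m + 1) ^ 3) with h0 | h0
    · have : T ⊆ Finset.Icc 1 m := fun p hp' => by
        obtain ⟨p1, -, p3⟩ := hT p hp'
        exact Finset.mem_Icc.2 ⟨p1.one_lt.le, hm ▸ pd_le p1 p3⟩
      have h1 := Finset.card_le_card this
      rw [Nat.card_Icc] at h1
      omega
    have hnt : ¬ IsMultiplyPretransitive H Y (C5 * (Nat.log 2 m + 1) ^ 3 + 1) := fun h => by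
      have := hG5 H Y _ (by rw [hm]; omega) h hg
      rw [hm] at this
      omega
    have hmy : m < y ^ 2 := lt_sq (by omega) hn hy hmn
    have hc : Nat.card Y = m := by rw [Nat.card_eq_fintype_card, hm]
    rcases hST y _ H Y (by omega) (by rw [hc]; exact hmy) hp.toIsPretransitive hnt T hT with
      h | ⟨H', Y', _, _, _, _, φ, hp', hK, h2, T', hTT, hcard, hT'⟩
    · exact h.trans b0
    rcases T'.eq_empty_or_nonempty with rfl | ⟨p, hpT⟩
    · rw [Finset.card_empty, zero_add] at hcard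
      exact hcard.trans b0
    letI : Fintype Y' := Fintype.ofFinite Y'
    letI : DecidableEq Y' := Classical.decEq Y'
    rw [hc, Nat.card_eq_fintype_card] at h2
    obtain ⟨k, hk⟩ : ∃ k, k = Fintype.card Y' := ⟨_, rfl⟩
    have hyk : y ≤ k := by
      rw [hk]
      exact (hT p (hTT hpT)).2.1.trans (pd_le (hT p (hTT hpT)).1 (hT' p hpT))
    rw [← hk] at h2
    have hyy : y ^ 2 ≤ k ^ 2 := Nat.pow_le_pow_left hyk 2
    by_cases hgi : Gi H' Y'
    · exfalso
      letI : MulAction H' Y := MulAction.compHom Y φ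
      obtain ⟨h, ⟨z, hz⟩, hmv⟩ := hG4 H' Y Y' (by rw [← hk]; omega) hgi (by
        rw [hm, ← hk]
        have : 8 * m ≤ C0 * n := Nat.mul_le_mul (by omega) hmn
        omega)
      have hmove : ∃ x : Y, φ h • x ≠ x := by
        by_contra hcon
        push Not at hcon
        exact hz (hK h hcon z)
      have hb := hBB H Y hp hg (φ h) hmove
      have e : mv Y h = mv Y (φ h) := rfl
      rw [e, hm, ← hk] at hmv
      rw [hm] at hb
      obtain ⟨μ, hμ⟩ : ∃ μ, μ = mv Y (φ h) := ⟨_, rfl⟩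
      rw [← hμ] at hb hmv
      have hμ1 : 1 ≤ μ := by
        rcases Nat.eq_zero_or_pos μ with h0 | h0
        · rw [h0] at hb
          omega
        · exact h0
      have a1 : m ≤ 9 * μ ^ 2 := by nlinarith
      have a2 : (μ * k) ^ 2 ≤ (10 * m) ^ 2 := Nat.pow_le_pow_left hmv 2
      have a3 : m * k ^ 2 ≤ m * (900 * m) :=
        calc m * k ^ 2 ≤ 9 * μ ^ 2 * k ^ 2 := Nat.mul_le_mul_right _ a1
          _ = 9 * (μ * k) ^ 2 := by ring
          _ ≤ 9 * (10 * m) ^ 2 := Nat.mul_le_mul_left _ a2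
          _ = m * (900 * m) := by ring
      have a4 : k ^ 2 ≤ 900 * m := Nat.le_of_mul_le_mul_left a3 (by omega)
      have a5 : 1601 * m ≤ C0 * n := Nat.mul_le_mul c1 hmn
      omega
    have i1 := ih k (by omega) H' Y' hk.symm hp' hgi (by omega) T' fun q hq =>
      ⟨(hT q (hTT hq)).1, (hT q (hTT hq)).2.1, hT' q hq⟩
    refine step_num hcard i1 ?_
    rw [← Nat.log_mul_base (by norm_num) (by omega)]
    exact Nat.log_mono_right (by omega)
  intro H Y _ _ _ _ _ hp hg hle T hT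
  exact key _ H Y rfl hp hg hle T hT

/-- the bound for one transitive constituent -/
theorem trans_bound (hA : RowACT) (hL : RowLAY) (h7 : RowG7) {C0 C n y : ℕ} (h3 : 3 ≤ y)
    (hR : ∀ (H Y : Type) [Group H] [Finite H] [MulAction H Y] [Fintype Y] [DecidableEq Y],
      IsPreprimitive H Y → ¬ Gi H Y → Fintype.card Y ≤ n →
      ∀ T : Finset ℕ, (∀ p ∈ T, p.Prime ∧ y ≤ p ∧ PD p H Y) →
        T.card ≤ C * (Nat.log 2 (Fintype.card Y) + 1) ^ 4)
    (h0 : 2 ≤ C0) (hn : C0 * n ≤ y ^ 2) (hy : C0 ≤ y)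
    (G Z : Type) [Group G] [Fintype G] [MulAction G Z] [Fintype Z] (ht : IsPretransitive G Z)
    (hZ : Fintype.card Z ≤ n) (x : ℕ → G) (T : Finset ℕ)
    (hT : ∀ p ∈ T, p.Prime ∧ y ≤ p ∧ (∀ a : Z, x p ^ p • a = a) ∧ QA G Z (x p) p) :
    T.card ≤ (C + 2) * (Nat.log 2 n + 1) ^ 4 ∧
      ∀ p ∈ T, ∃ c f : ℕ, 1 ≤ c ∧ f ≤ c ∧ Fintype.card Z = c * p + f := by
  have hZy : Fintype.card Z < y ^ 2 := lt_sq h0 hn hy hZ
  have hF : ∀ p ∈ T, PD p G Z ∧ ∃ c f : ℕ, 1 ≤ c ∧ f ≤ c ∧ Fintype.card Z = c * p + f := by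
    intro p hp
    obtain ⟨p1, p2, p3, p4⟩ := hT p hp
    obtain ⟨a, b⟩ := hA.form G Z (x p) p ht p1 (hZy.trans_le (Nat.pow_le_pow_left p2 2)) p3 p4
    exact ⟨⟨x p, a, p3⟩, b⟩
  refine ⟨?_, fun p hp => (hF p hp).2⟩
  rcases T.eq_empty_or_nonempty with rfl | ⟨q, hq⟩
  · simp
  have hyZ : y ≤ Fintype.card Z := (hT q hq).2.1.trans (pd_le (hT q hq).1 (hF q hq).1)
  obtain ⟨Y, W, _, _, _, β, ω, s, m, t, w, hlay, hs, ht', hm, hprim, -, -, hpd⟩ :=
    hL G Z y ht (by omega) (by rw [Nat.card_eq_fintype_card]; exact hyZ)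
      (by rw [Nat.card_eq_fintype_card]; exact hZy)
  letI : DecidableEq Y := Classical.decEq Y
  have hcx := hlay.cx
  rw [Nat.card_eq_fintype_card] at hcx
  have hmZ : m ≤ Fintype.card Z := by
    refine Nat.le_of_dvd (by omega) ?_
    rw [hcx]
    exact Dvd.dvd.mul_right (Dvd.intro_left t rfl) s
  have hpos : 1 ≤ (Nat.log 2 n + 1) ^ 4 := Nat.one_le_pow _ _ (Nat.succ_pos _)
  by_cases hgi : Gi (stabilizer G w) (fib ω w)
  · have hd : ∀ p ∈ T, p ∣ m ∨ p ∣ m - 1 := fun p hp => by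
      obtain ⟨p1, p2, p3, p4⟩ := hT p hp
      exact h7 G Z Y W β ω s m t w (x p) p ht hlay hgi p1 (by omega) (by omega) (by omega) p3 p4
    have a1 := card_dvd_le (y := y) (a := m) (by omega) (by omega) (T.filter (· ∣ m))
      fun p hp => by
        rw [Finset.mem_filter] at hp
        exact ⟨(hT p hp.1).1, (hT p hp.1).2.1, hp.2⟩
    have a2 := card_dvd_le (y := y) (a := m - 1) (by omega) (by omega)
      (T.filter fun p => ¬ p ∣ m) fun p hp => by
        rw [Finset.mem_filter] at hp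
        exact ⟨(hT p hp.1).1, (hT p hp.1).2.1, (hd p hp.1).resolve_left hp.2⟩
    have a3 := Finset.card_filter_add_card_filter_not (s := T) (· ∣ m)
    have a4 : 2 * 1 ≤ (C + 2) * (Nat.log 2 n + 1) ^ 4 := Nat.mul_le_mul (by omega) hpos
    omega
  have hcf : Fintype.card (fib ω w) = m := by
    rw [← Nat.card_eq_fintype_card]
    exact hlay.cm w
  have a1 := hR (stabilizer G w) (fib ω w) hprim hgi (by omega) T fun p hp =>
    ⟨(hT p hp).1, (hT p hp).2.1, hpd p (hT p hp).1 (hT p hp).2.1 (hF p hp).1⟩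
  refine a1.trans (Nat.mul_le_mul (by omega) (Nat.pow_le_pow_left (Nat.succ_le_succ ?_) 4))
  exact Nat.log_mono_right (by omega)

theorem rowGOOD : RowACT → RowLAY → RowREC → RowG7 → RowGOOD := by
  classical
  rintro hA hL ⟨C0, C, hR⟩ h7
  refine ⟨max C0 3, C + 2, fun G X _ _ _ _ y x A hn hy hAp => ?_⟩
  have c1 : C0 ≤ max C0 3 := le_max_left _ _
  have c2 : 3 ≤ max C0 3 := le_max_right _ _
  have hR' := hR (Fintype.card X) y ((Nat.mul_le_mul_right _ c1).trans hn) (c1.trans hy)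
  letI : Fintype (orbitRel.Quotient G X) := Fintype.ofFinite _
  have key : ∀ i : orbitRel.Quotient G X,
      (A.filter fun p => @QA G (orbit G i.out) _ _ _ (Fintype.ofFinite _) (x p) p).card ≤
        (C + 2) * (Nat.log 2 (Fintype.card X) + 1) ^ 4 ∧
      ∀ p ∈ A.filter fun p => @QA G (orbit G i.out) _ _ _ (Fintype.ofFinite _) (x p) p,
        ∃ c f : ℕ, 1 ≤ c ∧ f ≤ c ∧ Nat.card (orbit G i.out) = c * p + f := by
    intro i
    letI : Fintype (orbit G i.out) := Fintype.ofFinite _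
    rw [Nat.card_eq_fintype_card]
    refine trans_bound hA hL h7 (c2.trans hy) hR' (by omega) hn hy G (orbit G i.out) inferInstance
      (Fintype.card_le_of_injective _ Subtype.val_injective) x _ fun p hp => ?_
    rw [Finset.mem_filter] at hp
    obtain ⟨p1, p2, p3, -⟩ := hAp p hp.1
    exact ⟨p1, p2, fun a => Subtype.ext (p3 a), hp.2⟩
  refine ⟨orbitRel.Quotient G X, inferInstance, fun i => Nat.card (orbit G i.out),
    fun i => A.filter fun p => @QA G (orbit G i.out) _ _ _ (Fintype.ofFinite _) (x p) p, ?_,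
    fun p hp => ?_, fun i => (key i).1, fun i p hp => ?_⟩
  · rw [← Nat.card_sigma, ← Nat.card_congr (selfEquivSigmaOrbits G X), Nat.card_eq_fintype_card]
  · obtain ⟨a, ha⟩ := hA.orb G X (x p) p (hAp p hp).2.2.2
    have e : orbit G (Quotient.out (Quotient.mk (orbitRel G X) a)) = orbit G a :=
      orbit_eq_iff.2 (Quotient.mk_out (s := orbitRel G X) a)
    refine ⟨Quotient.mk _ a, Finset.mem_filter.2 ⟨hp, ?_⟩⟩
    exact @qa_congr G (orbit G a) _ _ _ _ (Fintype.ofFinite _) _ (Fintype.ofFinite _)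
      (Equiv.setCongr e) (fun _ _ => rfl) _ _ ha
  · have hp' := (Finset.mem_filter.1 hp).1
    exact ⟨(hAp p hp').1, (hAp p hp').2.1, (key i).2 p hp⟩

end Pool.Agent.MP_db5b97_nt.H30
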